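import Pool.Agent.V11290.FD.Sys

/-!
# Prime constellations with a shape near `t θ + s`, for almost every `θ` with respect to arbitrary products of
measures with a Fourier transform of polynomial decay

Let `μ 1, ..., μ k` be ANY compactly supported probability measures on the line whose Fourier transforms decay like some
power, with an arbitrarily small exponent `σ > 0`. (Such measures live on many sets of Lebesgue measure zero and of
arbitrarily small dimension: on the badly approximable numbers with bounded partial quotients (Kaufman), on the sets of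
`τ`-well approximable numbers (Kaufman), on limit sets of convex cocompact Fuchsian groups (Bourgain, Dyatlov), on random
Salem sets, ...). For almost every vector `θ` with respect to the product measure the asymptotic formula of Hardy and
Littlewood holds for ALL admissible tuples `P = (m 1, ..., m k)` of distinct positive integers near `t j θ + s j`,
in all windows.

Proof: the law of a random rounding of `t θ` is approximated by a finite family of integers (with multiplicities); its
additive energy of order `p ≥ 1 / σ` is nearly minimal since the characteristic function of the rounding is small away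
from the integers (a Fourier series with the coefficients `sinc²`). The theorem of the library TH935.TF on products of
thin families (starting files) is applied to these families, the result is carried back to the measure, and then the
lemma of Borel and Cantelli is applied.
-/

set_option autoImplicit false

namespace Pool.Agent.Results.MP_68a45e_nt.FourierDecay

open Finset Filter Topology MeasureTheory

/-- `w(q)`: the number of the residue classes of `n` modulo `q` with `n (n + m 1) ⋯ (n + m k) ≡ 0`, which is the number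
of the residue classes occupied by `0, m 1, ..., m k`. -/
def w {k : ℕ} (m : Fin k → ℕ) (q : ℕ) : ℕ := ((range q).filter (fun n => q ∣ n * ∏ i, (n + m i))).card

/-- The product over the primes `q ≤ z` of the factors `(1 - w(q) / q) / (1 - 1 / q) ^ (k + 1)` of `C_P` (if the `m i` are
even, the factor for `q = 2` is `2 ^ k`). -/
noncomputable def partialC {k : ℕ} (m : Fin k → ℕ) (z : ℕ) : ℝ :=
  ∏ q ∈ (Icc 1 z).filter Nat.Prime, (1 - (w m q : ℝ) / q) / (1 - 1 / (q : ℝ)) ^ (k + 1)

/-- The number of primes `p` with `y₁ < p ≤ y₂` such that `p + m i` is prime for every `i`. -/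
def count {k : ℕ} (m : Fin k → ℕ) (y₁ y₂ : ℕ) : ℕ :=
  ((Ioc y₁ y₂).filter (fun p => p.Prime ∧ ∀ i, (p + m i).Prime)).card

/-- The `m i` are positive and distinct, and there is no prime `q` for which `0, m 1, ..., m k` meet all residue classes
modulo `q`. -/
def Admissible {k : ℕ} (m : Fin k → ℕ) : Prop :=
  (∀ i, 0 < m i) ∧ Function.Injective m ∧ ∀ q : ℕ, q.Prime → w m q < q

/-- `C_P` converges to a positive number `c`, and for all `y₁ < y₂ ≤ B N` with `y₂ - y₁ ≥ N / log ^ A N` the number of the
constellations with `y₁ < p ≤ y₂` agrees with `c (y₂ - y₁) / log ^ (k + 1) N` up to a relative error of at most `ε`. -/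
def Holds (ε : ℝ) (A B N : ℕ) {k : ℕ} (m : Fin k → ℕ) : Prop :=
  ∃ c : ℝ, 0 < c ∧ Tendsto (partialC m) atTop (𝓝 c) ∧
    ∀ y₁ y₂ : ℕ, y₁ < y₂ → y₂ ≤ B * N → (N : ℝ) / Real.log N ^ A ≤ (y₂ : ℝ) - y₁ →
      |(count m y₁ y₂ : ℝ) - c * ((y₂ : ℝ) - y₁) / Real.log N ^ (k + 1)| ≤
        ε * (c * ((y₂ : ℝ) - y₁) / Real.log N ^ (k + 1))

open Pool.Agent.TH935.TF

lemma dvd_iff {k : ℕ} (m : Fin k → ℕ) (p : ℕ) (hp : p.Prime) (n : ℕ) :
    p ∣ n * ∏ i, (n + m i) ↔ ∃ i : Fin (k + 1), (p : ℤ) ∣ consA (fun _ : Fin k => 1) i * (n : ℤ) + consB (fun i => (m i : ℤ)) i := by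
  rw [Fin.exists_fin_succ, hp.dvd_mul]
  have h0 : ((p : ℤ) ∣ consA (fun _ : Fin k => 1) 0 * (n : ℤ) + consB (fun i => (m i : ℤ)) 0) ↔ p ∣ n := by
    rw [consA_zero, consB_zero, one_mul, add_zero, Int.natCast_dvd_natCast]
  have h1 : ∀ i : Fin k, ((p : ℤ) ∣ consA (fun _ : Fin k => 1) i.succ * (n : ℤ) + consB (fun i => (m i : ℤ)) i.succ) ↔ p ∣ n + m i := by
    intro i
    rw [consA_succ, consB_succ, one_mul, ← Nat.cast_add, Int.natCast_dvd_natCast]
  rw [h0]
  simp only [h1]
  have h2 := (Nat.prime_iff.1 hp).dvd_finsetProd_iff (S := univ) (fun i => n + m i)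
  rw [h2]
  simp

lemma w_eq {k : ℕ} (m : Fin k → ℕ) (p : ℕ) (hp : p.Prime) : w m p = om (consA (fun _ : Fin k => 1)) (consB (fun i => (m i : ℤ))) p := by
  unfold w om
  congr 1
  apply filter_congr
  intro n _
  exact dvd_iff m p hp n

lemma partial_eq {k : ℕ} (m : Fin k → ℕ) :
    partialC m = fun z => Gz (om (consA (fun _ : Fin k => 1)) (consB (fun i => (m i : ℤ)))) (k + 1) z := by
  funext z
  unfold partialC Gz Fq Pool.Agent.H373R2.T7.pz
  apply prod_congr rfl
  intro p hp
  rw [w_eq m p (mem_filter.1 hp).2]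

lemma count_eq {k : ℕ} (m : Fin k → ℕ) (y₁ y₂ : ℕ) :
    count m y₁ y₂ = cn (consA (fun _ : Fin k => 1)) (consB (fun i => (m i : ℤ))) y₁ y₂ := by
  unfold count cn
  congr 1
  apply filter_congr
  intro n _
  rw [Fin.forall_fin_succ]
  have h0 : (consA (fun _ : Fin k => 1) 0 * (n : ℤ) + consB (fun i => (m i : ℤ)) 0).natAbs = n := by
    rw [consA_zero, consB_zero, one_mul, add_zero, Int.natAbs_natCast]
  have h1 : ∀ i : Fin k, (consA (fun _ : Fin k => 1) i.succ * (n : ℤ) + consB (fun i => (m i : ℤ)) i.succ).natAbs = n + m i := by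
    intro i
    rw [consA_succ, consB_succ, one_mul, ← Nat.cast_add, Int.natAbs_natCast]
  rw [h0]
  simp only [h1]

lemma holds_of (ε : ℝ) (A B N : ℕ) {k : ℕ} (m : Fin k → ℕ) (hm : Admissible m)
    (h : HW consA consB ε A B 0 N (fun i => (m i : ℤ))) : Holds ε A B N m := by
  obtain ⟨S, hS0, hSt, hS⟩ := h (fun _ => 1) (fun _ => one_ne_zero) (fun _ => by simp) (by
    intro p hp
    have h1 := hm.2.2 p hp
    unfold w at h1
    have h2 : ∃ n ∈ range p, ¬ (p ∣ n * ∏ i, (n + m i)) := by
      by_contra hcon
      push Not at hcon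
      rw [filter_true_of_mem hcon, card_range] at h1
      exact lt_irrefl _ h1
    obtain ⟨n, _, hn⟩ := h2
    refine ⟨n, fun i hi => hn ?_⟩
    exact (dvd_iff m p hp n).2 ⟨i, hi⟩) (by
    intro i j hij
    refine ⟨?_, ?_⟩
    · rintro ⟨_, h2⟩
      revert hij h2
      refine Fin.cases ?_ (fun i => ?_) i
      · refine Fin.cases ?_ (fun j => ?_) j
        · intro h _; exact h rfl
        · intro _ h
          rw [consB_zero, consB_succ] at h
          have := hm.1 j
          omega
      · refine Fin.cases ?_ (fun j => ?_) j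
        · intro _ h
          rw [consB_zero, consB_succ] at h
          have := hm.1 i
          omega
        · intro hne h
          rw [consB_succ, consB_succ] at h
          apply hne
          rw [hm.2.1 (by exact_mod_cast h : m i = m j)]
    · rintro ⟨h1, _⟩
      have hA : ∀ i : Fin (k + 1), consA (fun _ : Fin k => (1 : ℤ)) i = 1 := by
        intro i
        refine Fin.cases ?_ (fun i => ?_) i
        · rfl
        · rfl
      rw [hA i, hA j] at h1
      norm_num at h1)
  refine ⟨S, hS0, by rw [partial_eq]; exact hSt, fun y₁ y₂ h12 hy2 hΔ => ?_⟩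
  rw [count_eq]
  exact hS y₁ y₂ h12.le hy2 hΔ

/-- Let `μ 1, ..., μ k` be probability measures on `[-B, B]` with `|μ_i^(ξ)| ≤ C |ξ| ^ (-σ)` for `|ξ| ≥ 1` and some `C` and
`σ > 0`. Let `t j ≥ 2` and `|s j i| ≤ B t j` be real numbers, where `j` ranges over a set `J`, such that the sum of the
`1 / log ^ V (t j)` converges for some `V`. Then for almost every `θ` with respect to the product of the `μ i`, for all `A`,
`A'`, `B'` and `ε > 0` and for all but finitely many `j`: ALL tuples `P = (m 1, ..., m k)` of natural numbers with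
`|m i - (t j θ i + s j i)| ≤ log ^ A (t j)` for all `i` which are admissible (the `m i` are positive and distinct, and there
is no congruence obstruction) are such that for ALL windows `y₁ < p ≤ y₂` with `y₂ ≤ B' N` and `y₂ - y₁ ≥ N / log ^ A' N`,
`N = ⌈t j⌉`, the number of the primes `p` in the window for which `p, p + m 1, ..., p + m k` is a prime constellation agrees
with `C_P (y₂ - y₁) / log ^ (k + 1) N` up to a relative error of at most `ε`. -/
theorem result (k : ℕ) (hk : 1 ≤ k) (μ : Fin k → Measure ℝ) [∀ i, IsProbabilityMeasure (μ i)] (B : ℝ)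
    (hμ : ∀ i, ∀ᵐ α ∂(μ i), |α| ≤ B) (C σ : ℝ) (hσ : 0 < σ)
    (hdec : ∀ i, ∀ ξ : ℝ, 1 ≤ |ξ| → ‖charFun (μ i) ξ‖ ≤ C * |ξ| ^ (-σ))
    (J : Type) (t : J → ℝ) (s : J → Fin k → ℝ) (ht : ∀ j, 2 ≤ t j) (hs : ∀ j i, |s j i| ≤ B * t j)
    (hsum : ∃ V : ℕ, Summable fun j => 1 / Real.log (t j) ^ V) :
    ∀ᵐ θ ∂(Measure.pi μ), ∀ (A A' B' : ℕ) (ε : ℝ), 0 < ε →
      {j | ¬ ∀ m : Fin k → ℕ, (∀ i, |(m i : ℝ) - (t j * θ i + s j i)| ≤ Real.log (t j) ^ A) → Admissible m →
        Holds ε A' B' ⌈t j⌉₊ m}.Finite := by
  have h := Pool.Agent.V11290.FD.sys_ae (sys_lam k hk) hk μ B hμ C σ hσ hdec J t s ht hs hsum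
  filter_upwards [h] with θ hθ A A' B' ε hε
  refine (hθ A A' B' 0 ε hε).subset ?_
  intro j hj
  rw [Set.mem_ofPred_eq] at hj ⊢
  intro hall
  apply hj
  intro m hm hadm
  exact holds_of ε A' B' _ m hadm (hall (fun i => (m i : ℤ)) (fun i => by exact_mod_cast hm i))

end Pool.Agent.Results.MP_68a45e_nt.FourierDecay
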