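import Pool.Agent.V1137.Lin2

/-!
For almost all admissible tuples `(m_1, ..., m_k)` the expected number of prime constellations
`p, p + m_1, ..., p + m_k`, up to a constant factor, starts at primes `p` which are isolated: there is
no other prime at distance at most `Λ log p` from `p`.
-/

set_option autoImplicit false

open Finset Filter Topology

namespace Pool.Agent.Results.MP_68a45e_nt.IsolatedConstellations

/-- There is no prime `q ≠ p` with `|q - p| ≤ Λ log p`. -/
def Isolated (Λ : ℝ) (p : ℕ) : Prop :=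
  ∀ q : ℕ, q.Prime → |(q : ℝ) - p| ≤ Λ * Real.log p → q = p

/-- For every prime `l` there is an integer `n` such that `l` divides none of the numbers
`n, n + m_1, ..., n + m_k`. -/
def Admissible {k : ℕ} (m : Fin k → ℕ) : Prop :=
  ∀ l : ℕ, l.Prime → ∃ n : ℤ, ¬ (l : ℤ) ∣ n ∧ ∀ i, ¬ (l : ℤ) ∣ n + m i

open Classical in
/-- The isolated primes `p ≤ x` for which all `p + m_i` are prime. -/
noncomputable def constellations {k : ℕ} (Λ : ℝ) (m : Fin k → ℕ) (x : ℕ) : Finset ℕ :=
  (Icc 1 x).filter (fun p => p.Prime ∧ Isolated Λ p ∧ ∀ i, (p + m i).Prime)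

open Classical in
/-- The admissible tuples with `1 ≤ m_i ≤ K x` and fewer than `c x / (log x) ^ (k + 1)` such primes. -/
noncomputable def exceptions (k : ℕ) (Λ c : ℝ) (K x : ℕ) : Finset (Fin k → ℕ) :=
  (Fintype.piFinset (fun _ : Fin k => Icc 1 (K * x))).filter (fun m => Admissible m ∧
    ((constellations Λ m x).card : ℝ) < c * (x / Real.log x ^ (k + 1)))

open Pool.Agent.V1137.Unav in
/-- **Prime constellations starting at isolated primes.** For all `k` and `Λ > 0` there is `c > 0`
such that for every `K` and for all admissible tuples `(m_1, ..., m_k)` of integers `1 ≤ m_i ≤ K x`,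
with `o(x ^ k)` exceptions as `x → ∞`, there are at least `c x / (log x) ^ (k + 1)` primes `p ≤ x`
for which `p + m_1, ..., p + m_k` are prime and there is no prime `q ≠ p` with
`|q - p| ≤ Λ log p`. -/
theorem result (k : ℕ) (Λ : ℝ) (hΛ : 0 < Λ) : ∃ c : ℝ, 0 < c ∧ ∀ K : ℕ,
    Tendsto (fun x : ℕ => ((exceptions k Λ c K x).card : ℝ) / (x : ℝ) ^ k) atTop (𝓝 0) := by
  classical
  obtain ⟨c, hc, h⟩ := lin_all k (isolated Λ) (isolated_all Λ hΛ)
  refine ⟨c, hc, fun K => ?_⟩
  apply tendsto_zero_of k _ (fun x => Nat.cast_nonneg _)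
  intro η hη
  obtain ⟨x₀, h0⟩ := h (fun _ => 1) (fun _ => Or.inl rfl) K 1 η one_pos hη
  refine ⟨x₀, fun x hx => le_trans ?_ (h0 x hx)⟩
  apply Nat.cast_le.2
  apply card_le_card
  intro m hm
  unfold exceptions at hm
  rw [mem_filter] at hm ⊢
  refine ⟨hm.1, ?_, x, by rw [one_mul], le_rfl, ?_, ?_⟩
  · intro l hl
    obtain ⟨n, hn1, hn2⟩ := hm.2.1 l hl
    refine ⟨n, hn1, fun j hd => hn2 j ?_⟩
    have e1 : (m j : ℤ) + 1 * (Polynomial.X : Polynomial ℤ).eval n = n + m j := by
      rw [Polynomial.eval_X]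
      ring
    rwa [e1] at hd
  · intro j hj
    norm_num at hj
  · refine lt_of_le_of_lt ?_ hm.2.2
    apply Nat.cast_le.2
    apply card_le_card
    intro p hp
    unfold ArgL at hp
    unfold constellations
    rw [mem_filter] at hp ⊢
    refine ⟨hp.1, hp.2.1, hp.2.2.1, fun i => ?_⟩
    have h1 := hp.2.2.2 i
    have e1 : ((m i : ℤ) + 1 * p).toNat = p + m i := by omega
    rwa [e1] at h1

end Pool.Agent.Results.MP_68a45e_nt.IsolatedConstellations
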