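import Pool.Agent.V11251.DS.Pal
import Pool.Agent.V11251.DS.HLdef

/-!
# The asymptotic formula of Hardy and Littlewood for prime tuples with palindromic shifts

The analytic input (the law of the palindromes, the second moment of the error for one shift, the deterministic part) is
in the starting files `Pool.Agent.H373R2.T7`, `Pool.Agent.W93`, `Pool.Agent.TH890`, `Pool.Agent.TH872`.
-/

set_option autoImplicit false

namespace Pool.Agent.Results.MP_68a45e_nt.PalindromicShifts

open Finset

/-- `v` is a palindrome with exactly `k` digits in base `b`: the digit number `j` (which is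
`v / b ^ j % b`) is equal to the digit number `k - 1 - j`, for all `j < k`. -/
def IsPalindrome (b k v : ℕ) : Prop :=
  b ^ (k - 1) ≤ v ∧ v < b ^ k ∧ ∀ j < k, v / b ^ j % b = v / b ^ (k - 1 - j) % b

open Classical in
/-- The palindromes with exactly `k` digits in base `b`. -/
noncomputable def pal (b k : ℕ) : Finset ℕ := (range (b ^ k)).filter (IsPalindrome b k)

/-- The number of the residues `r` mod `p` for which `p` divides `r (r + a 1) ... (r + a s)`. -/
def nu {s : ℕ} (a : Fin s → ℕ) (p : ℕ) : ℕ := ((range p).filter (fun r => p ∣ r ∨ ∃ i, p ∣ r + a i)).card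

/-- The partial product of the singular series of the tuple `0, a 1, ..., a s` over the primes `p ≤ z`. -/
noncomputable def sing {s : ℕ} (a : Fin s → ℕ) (z : ℕ) : ℝ :=
  ∏ p ∈ (Icc 1 z).filter Nat.Prime, (1 - (nu a p : ℝ) / p) / (1 - 1 / (p : ℝ)) ^ (s + 1)

/-- The primes `p ≤ N` for which all `p + a i` are primes. -/
def tuples {s : ℕ} (a : Fin s → ℕ) (N : ℕ) : Finset ℕ := (Icc 1 N).filter (fun p : ℕ => p.Prime ∧ ∀ i, (p + a i).Prime)

/-- The formula of Hardy and Littlewood for the tuple `p, p + a 1, ..., p + a s` and the primes `p ≤ N`: the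
singular series converges, its sum `S` predicts the weighted number of prime tuples with an error of
at most `N / log ^ U N`, and, if the tuple is admissible, `S` is positive and `S N / log ^ (s + 1) N`
predicts the number of prime tuples with a relative error of at most `ε`. -/
def Holds {s : ℕ} (ε : ℝ) (U N : ℕ) (a : Fin s → ℕ) : Prop :=
  ∃ S : ℝ, Filter.Tendsto (sing a) Filter.atTop (nhds S) ∧
    |∑ p ∈ tuples a N, Real.log p * ∏ i, Real.log (p + a i) - S * N| ≤ (N : ℝ) / Real.log N ^ U ∧
    ((∀ p : ℕ, p.Prime → ∃ r : ℕ, ¬ p ∣ r ∧ ∀ i, ¬ p ∣ r + a i) → 0 < S ∧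
      |((tuples a N).card : ℝ) - S * (N / Real.log N ^ (s + 1))| ≤ ε * (S * (N / Real.log N ^ (s + 1))))

open Classical in
/-- Let `s ≥ 1`, bases `b i ≥ 2`, `κ i ≥ 1`, `B`, `U` and `ε > 0` be fixed (`i < s`). Then, if `N` is large, for all
lengths `k i` with `N / B ≤ b i ^ k i ≤ B N` and all integers `0 ≤ c i ≤ B N`, the formula of Hardy and Littlewood for
the primes `p ≤ N` and the tuple `p, p + a 1, ..., p + a s` with `a i = c i + κ i * v i` holds for all the vectors
`(v 1, ..., v s)` of palindromes `v i` with `k i` digits in base `b i`, with the exception of a proportion of at most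
`1 / log ^ U N` of these vectors. (There are only about `N ^ (s / 2)` such vectors.) -/
theorem result (s : ℕ) (hs : 1 ≤ s) (b : Fin s → ℕ) (hb : ∀ i, 2 ≤ b i) (κ : Fin s → ℕ) (hκ : ∀ i, 1 ≤ κ i)
    (B U : ℕ) (ε : ℝ) (hε : 0 < ε) :
    ∃ N₀ : ℕ, ∀ N, N₀ ≤ N → ∀ k : Fin s → ℕ, (∀ i, N ≤ B * b i ^ k i ∧ b i ^ k i ≤ B * N) →
      ∀ c : Fin s → ℕ, (∀ i, c i ≤ B * N) →
        (((Fintype.piFinset fun i => pal (b i) (k i)).filter fun v =>
          ¬ Holds ε U N (fun i => c i + κ i * v i)).card : ℝ) ≤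
        ((Fintype.piFinset fun i => pal (b i) (k i)).card : ℝ) / Real.log N ^ U := by
  obtain ⟨N₀, h⟩ := Pool.Agent.V11251.DS.pal_tuples s hs b hb κ hκ B U ε hε
  refine ⟨N₀, fun N hN k hk c hc => ?_⟩
  have h1 := h N hN k (fun i => ⟨(hk i).2, (hk i).1⟩) c hc
  have e1 : (Fintype.piFinset fun i => pal (b i) (k i)) =
      Fintype.piFinset (fun i => Pool.Agent.TH872.Mir.Pals (b i) (k i)) := by
    congr 1
  rw [e1]
  refine le_trans ?_ h1
  apply Nat.cast_le.2 (card_le_card _)
  intro v hv
  rw [mem_filter] at hv ⊢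
  exact ⟨hv.1, fun hcon => hv.2 (Pool.Agent.V11251.DS.holds_of_HLs ε U N _ hcon)⟩

end Pool.Agent.Results.MP_68a45e_nt.PalindromicShifts
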