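import Mathlib
import Pool.Agent.V1137.SI2

/-!
Prime constellations `p, p + m_1, ..., p + m_k` with `p` in an ARBITRARY dense set `T` of primes and with
shifts `m_i` in intervals shorter than `p`, or than the shifts themselves, by a power: for a positive
proportion of the vectors of shifts the number of constellations has the expected order of magnitude.
-/

set_option autoImplicit false

open Finset Real

namespace Pool.Agent.Results.MP_68a45e_nt.ShiftsInShortIntervals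

/-- the number of `p ∈ T` for which all `p + m_i` are prime -/
def count {k : ℕ} (m : Fin k → ℕ) (T : Finset ℕ) : ℕ := (T.filter (fun p : ℕ => ∀ i, (p + m i).Prime)).card

/-- the vectors `m` of distinct integers, `Y_i < m_i ≤ Y_i + H_i`, for which the number of `p ∈ T` with
all `p + m_i` prime lies between `κ |T| / L` and `κ⁻¹ |T| / L` -/
noncomputable def good {k : ℕ} (κ L : ℝ) (Y H : Fin k → ℕ) (T : Finset ℕ) : Finset (Fin k → ℕ) :=
  open scoped Classical in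
  (Fintype.piFinset (fun i => Ioc (Y i) (Y i + H i))).filter (fun m => Function.Injective m ∧
    κ * T.card / L ≤ count m T ∧ κ * count m T ≤ T.card / L)

lemma good_mono {k : ℕ} {κ κ' L : ℝ} (hκ : κ ≤ κ') (hL : 0 < L) (Y H : Fin k → ℕ) (T : Finset ℕ) :
    good κ' L Y H T ⊆ good κ L Y H T := by
  intro m hm
  unfold good at hm ⊢
  rw [mem_filter] at hm ⊢
  refine ⟨hm.1, hm.2.1, le_trans ?_ hm.2.2.1, le_trans ?_ hm.2.2.2⟩
  · gcongr
  · gcongr

theorem result : ∃ δ : ℝ, 0 < δ ∧ δ < 1 ∧ ∀ k : ℕ, 1 ≤ k → ∀ c ρ : ℝ, 0 < c → 0 < ρ →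
    ∃ κ : ℝ, 0 < κ ∧ ∃ X₀ : ℕ, 4 ≤ X₀ ∧
    (∀ x : ℕ, X₀ ≤ x → ∀ H : Fin k → ℕ, (∀ i, (x : ℝ) ^ (1 - δ) ≤ H i) →
      ∀ T ⊆ (Icc 1 x).filter Nat.Prime, (∀ i, ∀ p ∈ T, H i ≤ p) → ρ * (x / log x) ≤ T.card →
      κ * ∏ i, (H i : ℝ) ≤ (good κ (log x ^ k) (fun _ => 0) H T).card) ∧
    (∀ X H : Fin k → ℕ, (∀ i, X₀ ≤ X i) → (∀ i, (X i : ℝ) ^ (1 - δ) ≤ H i) → (∀ i, H i ≤ X i) →
      ∀ x : ℕ, (∀ i, 2 * x ≤ X i) → c * ∏ i, log (X i) ≤ x / log x →
      ∀ T ⊆ (Icc 1 x).filter Nat.Prime, ρ * (x / log x) ≤ T.card →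
      κ * ∏ i, (H i : ℝ) ≤ (good κ (∏ i, log (X i)) X H T).card) := by
  classical
  obtain ⟨δ₁, h₁, h₁', hA⟩ := Pool.Agent.V1137.SI1.above
  obtain ⟨δ₂, h₂, h₂', hB⟩ := Pool.Agent.V1137.SI1.below
  refine ⟨min δ₁ δ₂, lt_min h₁ h₂, lt_of_le_of_lt (min_le_left _ _) h₁', fun k hk c ρ hc hρ => ?_⟩
  obtain ⟨κ₁, hκ₁, Y₁, hY₁, H1⟩ := hA k hk c ρ hc hρ
  obtain ⟨κ₂, hκ₂, Y₂, hY₂, H2⟩ := hB k hk ρ hρ
  refine ⟨min κ₁ κ₂, lt_min hκ₁ hκ₂, max Y₁ Y₂, hY₁.trans (le_max_left _ _), ?_, ?_⟩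
  · intro x hx H hxH T hT hHT hTc
    have hx4 : 4 ≤ x := (hY₁.trans (le_max_left _ _)).trans hx
    have hx4r : (4 : ℝ) ≤ x := by exact_mod_cast hx4
    have hl : 0 < log (x : ℝ) := Real.log_pos (by linarith)
    have hXH2 : ∀ i, (x : ℝ) ^ (1 - δ₂) ≤ H i := fun i =>
      le_trans (Real.rpow_le_rpow_of_exponent_le (by linarith)
        (by have := min_le_right δ₁ δ₂; linarith)) (hxH i)
    have h := H2 x ((le_max_right _ _).trans hx) H hXH2 T hT hHT hTc
    have h0 : 0 ≤ ∏ i, (H i : ℝ) := prod_nonneg fun i _ => Nat.cast_nonneg _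
    refine (mul_le_mul_of_nonneg_right (min_le_right _ _) h0).trans (h.trans (Nat.cast_le.2 ?_))
    refine (card_le_card ?_).trans (card_le_card
      (good_mono (min_le_right κ₁ κ₂) (pow_pos hl k) (fun _ => 0) H T))
    intro b hb
    unfold good
    rw [mem_filter] at hb ⊢
    simp only [zero_add]
    exact hb
  · intro X H hX hXH hHX x hx hcx T hT hTc
    have hX4 : ∀ i, 4 ≤ X i := fun i => (hY₁.trans (le_max_left _ _)).trans (hX i)
    have hL : 0 < ∏ i, log (X i : ℝ) := prod_pos fun i _ => Real.log_pos (by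
      exact_mod_cast (by have := hX4 i; omega : 1 < X i))
    have hXH1 : ∀ i, (X i : ℝ) ^ (1 - δ₁) ≤ H i := fun i =>
      le_trans (Real.rpow_le_rpow_of_exponent_le (by exact_mod_cast (by have := hX4 i; omega : 1 ≤ X i))
        (by have := min_le_left δ₁ δ₂; linarith)) (hXH i)
    have h := H1 X H (fun i => (le_max_left _ _).trans (hX i)) hXH1 hHX x hcx hx T hT hTc
    have h0 : 0 ≤ ∏ i, (H i : ℝ) := prod_nonneg fun i _ => Nat.cast_nonneg _
    refine (mul_le_mul_of_nonneg_right (min_le_left _ _) h0).trans (h.trans (Nat.cast_le.2 ?_))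
    refine (card_le_card ?_).trans (card_le_card (good_mono (min_le_left κ₁ κ₂) hL X H T))
    intro b hb
    unfold good
    rw [mem_filter] at hb ⊢
    exact hb

end Pool.Agent.Results.MP_68a45e_nt.ShiftsInShortIntervals
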